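import Pool.Agent.H.MP_33e188_co.Dil

set_option autoImplicit false

namespace Pool.Agent.H.MP_33e188_co

/-- A linear order on a subset of `P` extending the order of `P` there. -/
structure PLE (P : Type) [PartialOrder P] where
  dom : Set P
  ord : LinearOrder dom
  ext : ∀ x y : dom, x.1 < y.1 → ord.lt x y

/-- `x` and `y` lie in `L` and `x < y` in `L`. -/
def Bef {P : Type} [PartialOrder P] (L : PLE P) (x y : P) : Prop :=
  ∃ (hx : x ∈ L.dom) (hy : y ∈ L.dom), L.ord.lt ⟨x, hx⟩ ⟨y, hy⟩

/-- Local realizer. -/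
def IsLocalRealizer {P : Type} [PartialOrder P] (R : Finset (PLE P)) : Prop :=
  (∀ x y : P, x < y → ∃ L ∈ R, Bef L x y) ∧
  (∀ x y : P, ¬ x ≤ y → ¬ y ≤ x → ∃ L ∈ R, Bef L y x)

/-- Local dimension. -/
noncomputable def ldim (P : Type) [PartialOrder P] : ℕ :=
  sInf {t | ∃ R : Finset (PLE P), IsLocalRealizer R ∧
    ∀ x : P, {L | L ∈ R ∧ x ∈ L.dom}.ncard ≤ t}

/-- `w` is the largest size of an antichain. -/
def HasWidth (P : Type) [PartialOrder P] (w : ℕ) : Prop :=
  IsGreatest {n | ∃ A : Finset P, IsAntichain (· ≤ ·) (A : Set P) ∧ A.card = n} w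

section basic

variable {P : Type} [PartialOrder P] {L : PLE P} {x y z : P}

theorem Bef.trans (h1 : Bef L x y) (h2 : Bef L y z) : Bef L x z := by
  obtain ⟨a, b, h1⟩ := h1
  obtain ⟨c, d, h2⟩ := h2
  exact ⟨a, d, @lt_trans _ L.ord.toPreorder _ _ _ h1 h2⟩

theorem Bef.irrefl (h : Bef L x x) : False := by
  obtain ⟨a, b, h⟩ := h
  exact @lt_irrefl _ L.ord.toPreorder _ h

theorem Bef.of_lt (hx : x ∈ L.dom) (hy : y ∈ L.dom) (h : x < y) : Bef L x y :=
  ⟨hx, hy, L.ext _ _ h⟩

theorem Bef.left (h : Bef L x y) : x ∈ L.dom := h.1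
theorem Bef.right (h : Bef L x y) : y ∈ L.dom := h.2.1

theorem Bef.of_le_left (hx : x ∈ L.dom) (h1 : x ≤ y) (h2 : Bef L y z) : Bef L x z := by
  rcases h1.eq_or_lt with rfl | h1
  · exact h2
  · exact (Bef.of_lt hx h2.left h1).trans h2

end basic

theorem chain_ext {P : Type} [PartialOrder P] (C : P → Prop)
    (hC : ∀ x y, C x → C y → x ≤ y ∨ y ≤ x) :
    ∃ L : PLE P, L.dom = Set.univ ∧ ∀ x y, C x → ¬ x ≤ y → Bef L y x := by
  classical
  let r : P → P → Prop := fun x y => x ≤ y ∨ ∃ c, C c ∧ ¬ c ≤ x ∧ c ≤ y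
  have hr : IsPartialOrder P r :=
    { refl := fun x => Or.inl le_rfl
      trans := by
        rintro x y z (h1 | ⟨c, c1, c2, c3⟩) (h2 | ⟨d, d1, d2, d3⟩)
        · exact Or.inl (h1.trans h2)
        · exact Or.inr ⟨d, d1, fun h => d2 (h.trans h1), d3⟩
        · exact Or.inr ⟨c, c1, c2, c3.trans h2⟩
        · rcases hC c d c1 d1 with h | h
          · exact Or.inr ⟨c, c1, c2, h.trans d3⟩
          · exact absurd (h.trans c3) d2
      antisymm := by
        rintro x y (h1 | ⟨c, c1, c2, c3⟩) (h2 | ⟨d, d1, d2, d3⟩)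
        · exact le_antisymm h1 h2
        · exact absurd (d3.trans h1) d2
        · exact absurd (c3.trans h2) c2
        · rcases hC c d c1 d1 with h | h
          · exact absurd (h.trans d3) c2
          · exact absurd (h.trans c3) d2 }
  obtain ⟨s, hs, hrs⟩ := extend_partialOrder r
  let o : LinearOrder P :=
    { le := s
      lt := fun x y => s x y ∧ ¬ s y x
      le_refl := hs.refl
      le_trans := hs.trans
      le_antisymm := hs.antisymm
      le_total := hs.total
      lt_iff_le_not_ge := fun _ _ => Iff.rfl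
      toDecidableLE := Classical.decRel _ }
  have key : ∀ x y, x ≠ y → r x y → o.lt x y := fun x y hne h =>
    ⟨hrs _ _ h, fun h' => hne (hs.antisymm _ _ (hrs _ _ h) h')⟩
  refine ⟨⟨Set.univ, @LinearOrder.lift' _ _ o Subtype.val Subtype.val_injective,
    fun x y h => key x.1 y.1 h.ne (Or.inl h.le)⟩, rfl, fun x y hx h => ?_⟩
  exact ⟨trivial, trivial, key y x (fun e => h e.ge) (Or.inr ⟨x, hx, h, le_rfl⟩)⟩

theorem upper_real {P : Type} [Fintype P] [PartialOrder P] (w : ℕ) (h : HasWidth P w) :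
    ∃ R : Finset (PLE P), IsLocalRealizer R ∧ ∀ x : P, {L | L ∈ R ∧ x ∈ L.dom}.ncard ≤ w := by
  classical
  obtain ⟨f, f1, f2⟩ := dil_fin (Finset.univ : Finset P) w fun t _ ht => h.2 ⟨t, ht, rfl⟩
  choose L L1 L2 using fun i : ℕ => chain_ext (fun x : P => f x = i) fun x y hx hy =>
    f2 x (Finset.mem_univ _) y (Finset.mem_univ _) (hx.trans hy.symm)
  have hm : ∀ x, L (f x) ∈ (Finset.range w).image L := fun x =>
    Finset.mem_image_of_mem _ (Finset.mem_range.2 (f1 x (Finset.mem_univ _)))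
  refine ⟨(Finset.range w).image L, ⟨fun x y hxy => ⟨L (f y), hm y, L2 _ y x rfl hxy.not_ge⟩,
    fun x y h1 _ => ⟨L (f x), hm x, L2 _ x y rfl h1⟩⟩, fun x => ?_⟩
  refine le_trans (Set.ncard_le_ncard (t := ((Finset.range w).image L : Finset (PLE P)))
    (fun _ h => h.1) (Finset.finite_toSet _)) ?_
  rw [Set.ncard_coe_finset]
  exact Finset.card_image_le.trans (by simp)

theorem ldim_le {P : Type} [Fintype P] [PartialOrder P] (w : ℕ) (h : HasWidth P w) :
    ldim P ≤ w := Nat.sInf_le (upper_real w h)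

theorem ldim_spec {P : Type} [Fintype P] [PartialOrder P] (w : ℕ) (h : HasWidth P w) :
    ∃ R : Finset (PLE P), IsLocalRealizer R ∧
      ∀ x : P, {L | L ∈ R ∧ x ∈ L.dom}.ncard ≤ ldim P :=
  Nat.sInf_mem (s := {t | ∃ R : Finset (PLE P), IsLocalRealizer R ∧
    ∀ x : P, {L | L ∈ R ∧ x ∈ L.dom}.ncard ≤ t}) ⟨w, upper_real w h⟩

def HG {E V : Type} (tl hd : E → V) (rk : E → ℕ) (e : E) : SimpleGraph V :=
  SimpleGraph.fromRel fun u v => ∃ e', rk e < rk e' ∧ tl e' = u ∧ hd e' = v

theorem forest {E V : Type} [Fintype E] [DecidableEq V] (e0 : E) (tl hd : E → V) (rk : E → ℕ)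
    (hrk : Function.Injective rk) (h : ∀ e, ¬ (HG tl hd rk e).Reachable (tl e) (hd e)) :
    Fintype.card E + 1 ≤ (Finset.univ.image tl ∪ Finset.univ.image hd).card := by
  classical
  set U := Finset.univ.image tl ∪ Finset.univ.image hd with hU
  have m1 : ∀ e, tl e ∈ U := fun e =>
    Finset.mem_union_left _ (Finset.mem_image_of_mem _ (Finset.mem_univ e))
  have m2 : ∀ e, hd e ∈ U := fun e =>
    Finset.mem_union_right _ (Finset.mem_image_of_mem _ (Finset.mem_univ e))
  let v : Option E → (U → ℚ) := fun o => match o with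
    | none => Pi.single ⟨tl e0, m1 e0⟩ 1
    | some e => Pi.single ⟨tl e, m1 e⟩ 1 - Pi.single ⟨hd e, m2 e⟩ 1
  have hli : LinearIndependent ℚ v := by
    rw [Fintype.linearIndependent_iff]
    intro c hc
    have key : ∀ K : V → Prop, c none * (if K (tl e0) then 1 else 0) +
        ∑ e, c (some e) * ((if K (tl e) then 1 else 0) - (if K (hd e) then 1 else 0)) = 0 := by
      intro K
      let F : (U → ℚ) →ₗ[ℚ] ℚ := ∑ u : U, (if K u.1 then (1 : ℚ) else 0) • LinearMap.proj u
      have hF : ∀ u : U, F (Pi.single u 1) = if K u.1 then 1 else 0 := by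
        intro u
        simp only [F, LinearMap.sum_apply, LinearMap.smul_apply, LinearMap.proj_apply,
          smul_eq_mul]
        rw [Finset.sum_eq_single u]
        · simp
        · intro b _ hb
          simp [hb]
        · simp
      have := congrArg F hc
      rw [map_sum, map_zero, Fintype.sum_option] at this
      simpa only [map_smul, v, map_sub, hF, smul_eq_mul] using this
    have h0 : c none = 0 := by simpa using key fun _ => True
    have h1 : ∀ n e, rk e = n → c (some e) = 0 := by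
      intro n
      induction n using Nat.strong_induction_on with
      | _ n ih =>
        intro e he
        have := key fun u => (HG tl hd rk e).Reachable (tl e) u
        rw [h0, zero_mul, zero_add, Finset.sum_eq_single e] at this
        · simpa [h e] using this
        · intro b _ hb
          rcases lt_trichotomy (rk b) (rk e) with hlt | heq | hgt
          · rw [ih (rk b) (he ▸ hlt) b rfl, zero_mul]
          · exact absurd (hrk heq) hb
          · have hbb : (HG tl hd rk e).Reachable (tl b) (hd b) := by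
              by_cases e1 : tl b = hd b
              · rw [e1]
              · exact SimpleGraph.Adj.reachable ⟨e1, Or.inl ⟨b, hgt, rfl, rfl⟩⟩
            have : (HG tl hd rk e).Reachable (tl e) (tl b) ↔
                (HG tl hd rk e).Reachable (tl e) (hd b) :=
              ⟨fun a => a.trans hbb, fun a => a.trans hbb.symm⟩
            simp [this]
        · simp
    rintro (_ | e)
    · exact h0
    · exact h1 _ e rfl
  have := hli.fintype_card_le_finrank
  simpa using this

/-- Strict lexicographic comparison of the first `r` coordinates. -/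
def PL {m M : ℕ} (r : ℕ) (a b : Fin m → Fin M) : Prop :=
  ∃ q : Fin m, q.1 < r ∧ a q < b q ∧ ∀ q' < q, a q' = b q'

def LE' {m M : ℕ} (a b : Fin m → Fin M) : Prop := a = b ∨ PL m a b

theorem PL_trans {m M : ℕ} {r r' : ℕ} {a b c : Fin m → Fin M} (h1 : PL r a b) (h2 : PL r' b c) :
    PL r a c ∧ PL r' a c := by
  obtain ⟨q, q1, q2, q3⟩ := h1
  obtain ⟨p, p1, p2, p3⟩ := h2
  rcases lt_trichotomy q p with h | h | h
  · have h' : q.1 < p.1 := h
    have : ∀ q' < q, a q' = c q' := fun q' h' => (q3 q' h').trans (p3 q' (h'.trans h))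
    exact ⟨⟨q, q1, p3 q h ▸ q2, this⟩, ⟨q, by omega, p3 q h ▸ q2, this⟩⟩
  · subst h
    have : ∀ q' < q, a q' = c q' := fun q' h' => (q3 q' h').trans (p3 q' h')
    exact ⟨⟨q, q1, q2.trans p2, this⟩, ⟨q, p1, q2.trans p2, this⟩⟩
  · have h' : p.1 < q.1 := h
    have : ∀ q' < p, a q' = c q' := fun q' h' => (q3 q' (h'.trans h)).trans (p3 q' h')
    exact ⟨⟨p, by omega, (q3 p h).symm ▸ p2, this⟩, ⟨p, p1, (q3 p h).symm ▸ p2, this⟩⟩

theorem PL_irrefl {m M : ℕ} {r : ℕ} {a : Fin m → Fin M} (h : PL r a a) : False := by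
  obtain ⟨q, -, q2, -⟩ := h
  exact lt_irrefl _ q2

theorem LE'_total {m M : ℕ} (a b : Fin m → Fin M) : LE' a b ∨ LE' b a := by
  classical
  by_cases h : a = b
  · exact Or.inl (Or.inl h)
  have hne : (Finset.univ.filter fun q => a q ≠ b q).Nonempty := by
    by_contra hc
    apply h
    funext q
    by_contra hq
    exact hc ⟨q, by simp [hq]⟩
  have h1 := Finset.min'_mem _ hne
  have h2 : ∀ q' < Finset.min' _ hne, a q' = b q' := by
    intro q' hq
    by_contra hc
    exact absurd (Finset.min'_le (Finset.univ.filter fun q => a q ≠ b q) q' (by simp [hc]))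
      (not_le.2 hq)
  rcases lt_or_gt_of_ne (Finset.mem_filter.1 h1).2 with h3 | h3
  · exact Or.inl (Or.inr ⟨_, (Finset.min' _ hne).2, h3, h2⟩)
  · exact Or.inr (Or.inr ⟨_, (Finset.min' _ hne).2, h3, fun q hq => (h2 q hq).symm⟩)

theorem LE'_of_le {m M : ℕ} (a b : Fin m → Fin M) (h : ∀ q, a q ≤ b q) : LE' a b := by
  rcases LE'_total a b with h1 | h1 | ⟨q, -, q2, -⟩
  · exact h1
  · exact Or.inl h1.symm
  · exact absurd (h q) (not_le.2 q2)

end Pool.Agent.H.MP_33e188_co
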