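import Pool.Agent.H.MP_33e188_co.A
import Pool.Agent.Lib.helper4.Ramsey

set_option autoImplicit false

namespace Pool.Agent.H.MP_33e188_co

def rk {w : ℕ} (i j : Fin w) : ℕ := (finProdFinEquiv (i, j)).1

theorem rk_lt {w : ℕ} (i j : Fin w) : rk i j < w * w := (finProdFinEquiv (i, j)).2

@[ext] structure PP (w S M : ℕ) where
  i : Fin w
  s : Fin S
  a : Fin (w * w) → Fin M

instance (w S M : ℕ) : Finite (PP w S M) :=
  Finite.of_injective (fun x : PP w S M => (x.i, x.s, x.a)) fun x y h => by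
    simp only [Prod.mk.injEq] at h
    exact PP.ext h.1 h.2.1 h.2.2

noncomputable instance (w S M : ℕ) : Fintype (PP w S M) := Fintype.ofFinite _

def ple {w S M : ℕ} (x y : PP w S M) : Prop :=
  x.s.1 + 2 ≤ y.s.1 ∨ (x.s.1 + 1 = y.s.1 ∧ (x.i = y.i ∨ PL (rk x.i y.i) x.a y.a)) ∨
    (x.s.1 = y.s.1 ∧ x.i = y.i ∧ LE' x.a y.a)

instance (w S M : ℕ) : PartialOrder (PP w S M) where
  le := ple
  le_refl x := Or.inr (Or.inr ⟨rfl, rfl, Or.inl rfl⟩)
  le_trans x y z := by
    rintro (h1 | ⟨h1, h2⟩ | ⟨h1, h2, h3⟩) (g1 | ⟨g1, g2⟩ | ⟨g1, g2, g3⟩)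
    · exact Or.inl (by omega)
    · exact Or.inl (by omega)
    · exact Or.inl (by omega)
    · exact Or.inl (by omega)
    · exact Or.inl (by omega)
    · refine Or.inr (Or.inl ⟨by omega, ?_⟩)
      rw [← g2]
      rcases h2 with h2 | h2
      · exact Or.inl h2
      · rcases g3 with g3 | g3
        · exact Or.inr (g3 ▸ h2)
        · exact Or.inr (PL_trans h2 g3).1
    · exact Or.inl (by omega)
    · refine Or.inr (Or.inl ⟨by omega, ?_⟩)
      rw [h2]
      rcases g2 with g2 | g2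
      · exact Or.inl g2
      · rcases h3 with h3 | h3
        · exact Or.inr (h3 ▸ g2)
        · exact Or.inr (PL_trans h3 g2).2
    · refine Or.inr (Or.inr ⟨by omega, h2.trans g2, ?_⟩)
      rcases h3 with h3 | h3
      · exact h3 ▸ g3
      · rcases g3 with g3 | g3
        · exact Or.inr (g3 ▸ h3)
        · exact Or.inr (PL_trans h3 g3).1
  le_antisymm x y := by
    rintro (h1 | ⟨h1, h2⟩ | ⟨h1, h2, h3⟩) (g1 | ⟨g1, g2⟩ | ⟨g1, g2, g3⟩) <;> try omega
    refine PP.ext h2 (Fin.ext h1) ?_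
    rcases h3 with h3 | h3
    · exact h3
    · rcases g3 with g3 | g3
      · exact g3.symm
      · exact (PL_irrefl (PL_trans h3 g3).1).elim

theorem le_iff {w S M : ℕ} (x y : PP w S M) : x ≤ y ↔ ple x y := Iff.rfl

theorem width_PP (w S M : ℕ) : HasWidth (PP w (S + 1) (M + 1)) w := by
  classical
  constructor
  · refine ⟨Finset.univ.image fun i => (⟨i, 0, fun _ => 0⟩ : PP w (S + 1) (M + 1)), ?_, ?_⟩
    · intro x hx y hy hne h
      simp only [Finset.coe_image, Finset.coe_univ, Set.image_univ, Set.mem_range] at hx hy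
      obtain ⟨i, rfl⟩ := hx
      obtain ⟨j, rfl⟩ := hy
      rcases h with h | h | h
      · simp at h
      · simp at h
      · exact hne (by rw [show i = j from h.2.1])
    · rw [Finset.card_image_of_injective _ fun i j h => congrArg PP.i h]
      simp
  · rintro n ⟨A, hA, rfl⟩
    refine le_trans (Finset.card_le_card_of_injOn (t := Finset.univ) PP.i (fun _ _ => by simp)
      fun x hx y hy h => ?_) (by simp)
    by_contra hne
    have key : ∀ x y : PP w (S + 1) (M + 1), x.i = y.i → x.s.1 < y.s.1 → x ≤ y := by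
      intro x y h1 h2
      by_cases h3 : x.s.1 + 1 = y.s.1
      · exact Or.inr (Or.inl ⟨h3, Or.inl h1⟩)
      · exact Or.inl (by omega)
    rcases lt_trichotomy x.s.1 y.s.1 with h1 | h1 | h1
    · exact hA hx hy hne (key x y h h1)
    · rcases LE'_total x.a y.a with h2 | h2
      · exact hA hx hy hne (Or.inr (Or.inr ⟨h1, h, h2⟩))
      · exact hA hy hx (Ne.symm hne) (Or.inr (Or.inr ⟨h1.symm, h.symm, h2⟩))
    · exact hA hy hx (Ne.symm hne) (key y x h.symm h1)

abbrev Arc (w : ℕ) : Type := {p : Fin w × Fin w // p.1 ≠ p.2}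

def ev {m M : ℕ} (c : Fin (2 * m) → Fin M) : Fin m → Fin M :=
  fun q => c ⟨2 * q.1, by have := q.2; omega⟩

def od {m M : ℕ} (r : ℕ) (c : Fin (2 * m) → Fin M) : Fin m → Fin M :=
  fun q => if q.1 < r then c ⟨2 * q.1, by have := q.2; omega⟩
    else c ⟨2 * q.1 + 1, by have := q.2; omega⟩

def Adm {m : ℕ} (W : ℕ) (g : Fin m → ℕ) : Prop := ∀ q, q.1 * W + 1 ≤ g q ∧ g q + 2 ≤ q.1 * W + W

def Sl {P : Type} [PartialOrder P] {t : ℕ} (R : Finset (PLE P)) (idx : P → PLE P → Fin t)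
    (x : P) (γ : Fin t) (L : PLE P) : Prop := L ∈ R ∧ x ∈ L.dom ∧ idx x L = γ

def mix {m : ℕ} (g h : Fin m → ℕ) : Fin (2 * m) → ℕ :=
  fun n => if n.1 % 2 = 0 then g ⟨n.1 / 2, by have := n.2; omega⟩
    else h ⟨n.1 / 2, by have := n.2; omega⟩

theorem mix_mono {m : ℕ} (W : ℕ) (g h : Fin m → ℕ) (h1 : ∀ q, q.1 * W ≤ g q)
    (h2 : ∀ q, g q < h q) (h3 : ∀ q, h q < q.1 * W + W) :
    StrictMono (mix g h) ∧ ∀ n, mix g h n < m * W := by
  have lo : ∀ n : Fin (2 * m), n.1 / 2 * W ≤ mix g h n ∧ mix g h n < n.1 / 2 * W + W := by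
    intro n
    have a1 := h1 ⟨n.1 / 2, by have := n.2; omega⟩
    have a2 := h2 ⟨n.1 / 2, by have := n.2; omega⟩
    have a3 := h3 ⟨n.1 / 2, by have := n.2; omega⟩
    unfold mix
    simp only at a1 a3
    split_ifs <;> omega
  constructor
  · intro n n' hn
    have hn' : n.1 < n'.1 := hn
    by_cases e : n.1 / 2 = n'.1 / 2
    · have e1 : n.1 % 2 = 0 := by omega
      have e2 : ¬ n'.1 % 2 = 0 := by omega
      simp only [mix, e1, e2, if_true, if_false, e]
      exact h2 _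
    · have : (n.1 / 2 + 1) * W ≤ n'.1 / 2 * W := Nat.mul_le_mul_right _ (by omega)
      rw [Nat.add_mul, one_mul] at this
      have := lo n
      have := lo n'
      omega
  · intro n
    have : (n.1 / 2 + 1) * W ≤ m * W := Nat.mul_le_mul_right _ (by have := n.2; omega)
    rw [Nat.add_mul, one_mul] at this
    have := lo n
    omega

theorem mix_ev {m : ℕ} (g h : Fin m → ℕ) (q : Fin m) (hq : 2 * q.1 < 2 * m) :
    mix g h ⟨2 * q.1, hq⟩ = g q := by
  simp [mix]

theorem mix_od {m : ℕ} (g h : Fin m → ℕ) (q : Fin m) (hq : 2 * q.1 + 1 < 2 * m) :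
    mix g h ⟨2 * q.1 + 1, hq⟩ = h q := by
  have e : (2 * q.1 + 1) / 2 = q.1 := by omega
  simp [mix, e]

theorem homog (w S t W : ℕ) : ∃ M : ℕ, ∀ (R : Finset (PLE (PP w (S + 1) (M + 1))))
    (idx : PP w (S + 1) (M + 1) → PLE (PP w (S + 1) (M + 1)) → Fin t), IsLocalRealizer R →
    (∀ x γ L L', Sl R idx x γ L → Sl R idx x γ L' → L = L') →
    ∃ (e : ℕ → Fin (M + 1)) (α β : Arc w → Fin S → Fin t),
      (∀ a b, a < b → b < w * w * W → e a < e b) ∧
      ∀ (p : Arc w) (s : Fin S) (g g' : Fin (w * w) → ℕ), Adm W g → Adm W g' →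
        (∀ q, q.1 < rk p.1.1 p.1.2 → g q = g' q) →
        ∃ L, Sl R idx ⟨p.1.1, s.castSucc, e ∘ g⟩ (α p s) L ∧
          Sl R idx ⟨p.1.2, s.succ, e ∘ g'⟩ (β p s) L ∧
          Bef L ⟨p.1.2, s.succ, e ∘ g'⟩ ⟨p.1.1, s.castSucc, e ∘ g⟩ := by
  classical
  obtain ⟨M, hM⟩ := Pool.Agent.Lib.helper4.Ramsey.ram (Arc w → Fin S → Option (Fin t × Fin t))
    (2 * (w * w)) (w * w * W)
  refine ⟨M, fun R idx hR huniq => ?_⟩
  let X : Arc w → Fin S → (Fin (2 * (w * w)) → Fin (M + 1)) → PP w (S + 1) (M + 1) :=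
    fun p s c => ⟨p.1.1, s.castSucc, ev c⟩
  let Y : Arc w → Fin S → (Fin (2 * (w * w)) → Fin (M + 1)) → PP w (S + 1) (M + 1) :=
    fun p s c => ⟨p.1.2, s.succ, od (rk p.1.1 p.1.2) c⟩
  have hdem : ∀ p s c, ∃ L ∈ R, Bef L (Y p s c) (X p s c) := by
    intro p s c
    refine hR.2 _ _ ?_ ?_
    · rintro (h | ⟨-, h | ⟨q, q1, q2, -⟩⟩ | ⟨h, -⟩)
      · simp [X, Y] at h
      · exact p.2 h
      · simp only [X, Y, ev, od] at q1 q2
        rw [if_pos q1] at q2
        exact lt_irrefl _ q2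
      · simp [X, Y] at h
    · rintro (h | ⟨h, -⟩ | ⟨h, -⟩) <;> simp only [X, Y, Fin.val_succ, Fin.val_castSucc] at h <;>
        omega
  choose Λ Λ1 Λ2 using hdem
  obtain ⟨Z, -, hZ, hcol⟩ := hM (Fin (M + 1)) Finset.univ (by simp)
    fun c p s => some (idx (X p s c) (Λ p s c), idx (Y p s c) (Λ p s c))
  let e : ℕ → Fin (M + 1) := fun n => if h : n < w * w * W then Z.orderEmbOfFin hZ ⟨n, h⟩ else 0
  have he : ∀ a b, a < b → b < w * w * W → e a < e b := by
    intro a b h1 h2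
    simp only [e, dif_pos h2, dif_pos (h1.trans h2)]
    exact (Z.orderEmbOfFin hZ).strictMono h1
  have heZ : ∀ a, a < w * w * W → e a ∈ Z := by
    intro a h
    simp only [e, dif_pos h]
    exact Finset.orderEmbOfFin_mem _ _ _
  by_cases hW : W < 3
  · rcases isEmpty_or_nonempty (Arc w × Fin S) with hE | ⟨⟨p0, s0⟩⟩
    · exact ⟨e, fun p s => (hE.false (p, s)).elim, fun p s => (hE.false (p, s)).elim, he,
        fun p s => (hE.false (p, s)).elim⟩
    · let γ := idx (X p0 s0 fun _ => 0) (Λ p0 s0 fun _ => 0)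
      refine ⟨e, fun _ _ => γ, fun _ _ => γ, he, fun p s g g' hg => ?_⟩
      have := hg ⟨_, rk_lt p.1.1 p.1.2⟩
      omega
  let c0 : Fin (2 * (w * w)) → Fin (M + 1) := e ∘ mix (fun q => q.1 * W) (fun q => q.1 * W + 1)
  have good : ∀ g h : Fin (w * w) → ℕ, (∀ q, q.1 * W ≤ g q) → (∀ q, g q < h q) →
      (∀ q, h q < q.1 * W + W) → StrictMono (e ∘ mix g h) ∧ ∀ n, (e ∘ mix g h) n ∈ Z := by
    intro g h h1 h2 h3
    obtain ⟨m1, m2⟩ := mix_mono W g h h1 h2 h3
    exact ⟨fun n n' hn => he _ _ (m1 hn) (m2 _), fun n => heZ _ (m2 n)⟩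
  have g0 := good (fun q => q.1 * W) (fun q => q.1 * W + 1) (fun _ => le_rfl)
    (fun _ => Nat.lt_succ_self _) (fun _ => by omega)
  refine ⟨e, fun p s => idx (X p s c0) (Λ p s c0), fun p s => idx (Y p s c0) (Λ p s c0), he,
    fun p s => ?_⟩
  have base : ∀ g h : Fin (w * w) → ℕ, (∀ q, q.1 * W ≤ g q) → (∀ q, g q < h q) →
      (∀ q, h q < q.1 * W + W) → ∃ L,
        Sl R idx ⟨p.1.1, s.castSucc, e ∘ g⟩ (idx (X p s c0) (Λ p s c0)) L ∧
        Sl R idx ⟨p.1.2, s.succ, e ∘ fun q => if q.1 < rk p.1.1 p.1.2 then g q else h q⟩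
          (idx (Y p s c0) (Λ p s c0)) L ∧
        Bef L ⟨p.1.2, s.succ, e ∘ fun q => if q.1 < rk p.1.1 p.1.2 then g q else h q⟩
          ⟨p.1.1, s.castSucc, e ∘ g⟩ := by
    intro g h h1 h2 h3
    obtain ⟨a1, a2⟩ := good g h h1 h2 h3
    have hc := congrFun (congrFun (hcol _ _ a1 g0.1 a2 g0.2) p) s
    simp only [Option.some.injEq, Prod.mk.injEq] at hc
    have eX : X p s (e ∘ mix g h) = ⟨p.1.1, s.castSucc, e ∘ g⟩ := by
      simp only [X]
      congr 1
      funext q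
      simp only [ev, Function.comp, mix_ev]
    have eY : Y p s (e ∘ mix g h) =
        ⟨p.1.2, s.succ, e ∘ fun q => if q.1 < rk p.1.1 p.1.2 then g q else h q⟩ := by
      simp only [Y]
      congr 1
      funext q
      simp only [od, Function.comp, mix_ev, mix_od]
      split_ifs <;> rfl
    have b := Λ2 p s (e ∘ mix g h)
    refine ⟨Λ p s (e ∘ mix g h), ⟨Λ1 _ _ _, eX ▸ b.right, eX ▸ hc.1⟩,
      ⟨Λ1 _ _ _, eY ▸ b.left, eY ▸ hc.2⟩, eX ▸ eY ▸ b⟩
  intro g g' hg hg' hgg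
  obtain ⟨L1, a1, a2, a3⟩ := base g (fun q => q.1 * W + W - 1) (fun q => by have := hg q; omega)
    (fun q => by have := hg q; omega) (fun q => by omega)
  obtain ⟨L2, b1, b2, -⟩ := base (fun q => if q.1 < rk p.1.1 p.1.2 then g q else q.1 * W)
    (fun q => q.1 * W + W - 1) (fun q => by have := hg q; split_ifs <;> omega)
    (fun q => by have := hg q; split_ifs <;> omega) (fun q => by omega)
  obtain ⟨L3, c1, c2, -⟩ := base (fun q => if q.1 < rk p.1.1 p.1.2 then g q else q.1 * W)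
    (fun q => if q.1 < rk p.1.1 p.1.2 then q.1 * W + W - 1 else g' q)
    (fun q => by have := hg q; split_ifs <;> omega)
    (fun q => by have := hg q; have := hg' q; split_ifs <;> omega)
    (fun q => by have := hg' q; split_ifs <;> omega)
  have e1 : (fun q : Fin (w * w) => if q.1 < rk p.1.1 p.1.2 then
      (if q.1 < rk p.1.1 p.1.2 then g q else q.1 * W) else q.1 * W + W - 1) =
      fun q => if q.1 < rk p.1.1 p.1.2 then g q else q.1 * W + W - 1 := by
    funext q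
    split_ifs <;> rfl
  have e2 : (fun q : Fin (w * w) => if q.1 < rk p.1.1 p.1.2 then
      (if q.1 < rk p.1.1 p.1.2 then g q else q.1 * W) else
      (if q.1 < rk p.1.1 p.1.2 then q.1 * W + W - 1 else g' q)) = g' := by
    funext q
    split_ifs with h
    · exact hgg q h
    · rfl
  rw [e1] at b2
  rw [e2] at c2
  obtain rfl := huniq _ _ _ _ a2 b2
  obtain rfl := huniq _ _ _ _ b1 c1
  refine ⟨L1, a1, c2, Bef.of_le_left c2.2.1 ?_ a3⟩
  refine Or.inr (Or.inr ⟨rfl, rfl, LE'_of_le _ _ fun q => ?_⟩)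
  simp only [Function.comp]
  split_ifs with h
  · rw [hgg q h]
  · have h1 := hg' q
    have : (q.1 + 1) * W ≤ w * w * W := Nat.mul_le_mul_right _ q.2
    rw [Nat.add_mul, one_mul] at this
    exact (he _ _ (by omega) (by omega)).le

end Pool.Agent.H.MP_33e188_co
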