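import Pool.Agent.H.MP_33e188_co.B

set_option autoImplicit false

namespace Pool.Agent.H.MP_33e188_co

def gz {m : ℕ} (W r z : ℕ) : Fin m → ℕ := fun q => if q.1 = r then q.1 * W + 1 + z else q.1 * W + 1

theorem gz_adm {m : ℕ} (W r z : ℕ) (h : z + 3 ≤ W) : Adm W (gz (m := m) W r z) := by
  intro q
  unfold gz
  split_ifs <;> omega

theorem gz_pre {m : ℕ} (W r z : ℕ) (q : Fin m) (h : q.1 < r) : gz W r z q = q.1 * W + 1 :=
  if_neg h.ne

theorem gz_PL {m M : ℕ} (W r z r' : ℕ) (hr : r < m) (hr' : r < r') (h : z + 1 + 3 ≤ W)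
    (e : ℕ → Fin M) (he : ∀ a b, a < b → b < m * W → e a < e b) :
    PL r' (e ∘ gz (m := m) W r z) (e ∘ gz W r (z + 1)) := by
  refine ⟨⟨r, hr⟩, hr', ?_, fun q' hq => ?_⟩
  · have : (r + 1) * W ≤ m * W := Nat.mul_le_mul_right _ hr
    rw [Nat.add_mul, one_mul] at this
    simp only [Function.comp, gz, if_true]
    exact he _ _ (by omega) (by omega)
  · simp only [Function.comp]
    rw [gz_pre _ _ _ _ hq, gz_pre _ _ _ _ hq]

theorem card_arc (w : ℕ) : Fintype.card (Arc w) + w = w * w := by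
  have h1 : Fintype.card {p : Fin w × Fin w // p.1 = p.2} = w := by
    rw [Fintype.card_congr (β := Fin w) ⟨fun p => p.1.1, fun i => ⟨(i, i), rfl⟩,
      fun ⟨⟨a, b⟩, h⟩ => by simp only at h; subst h; rfl, fun _ => rfl⟩]
    simp
  have h2 := Fintype.card_subtype_compl fun p : Fin w × Fin w => p.1 = p.2
  have h3 := Fintype.card_subtype_le fun p : Fin w × Fin w => p.1 = p.2
  rw [h1] at h2 h3
  simp only [Fintype.card_prod, Fintype.card_fin] at h2 h3
  have : Fintype.card (Arc w) = w * w - w := h2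
  omega

theorem lower (t : ℕ) (ht : 1 ≤ t) : ∃ S M : ℕ, t + 1 ≤ ldim (PP (t + 1) (S + 1) (M + 1)) := by
  classical
  set w := t + 1 with hw
  set S := w * w with hS
  set W := Fintype.card (Fin w × Fin (S + 1) × Fin t) + 3 with hW
  obtain ⟨M, hM⟩ := homog w S t W
  refine ⟨S, M, ?_⟩
  by_contra hc
  obtain ⟨R, hR, hfreq⟩ := ldim_spec w (width_PP w S M)
  have : Nonempty (Fin t) := ⟨⟨0, ht⟩⟩
  have hidx : ∀ x : PP w (S + 1) (M + 1), ∃ f : PLE (PP w (S + 1) (M + 1)) → Fin t,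
      Set.InjOn f {L | L ∈ R ∧ x ∈ L.dom} := by
    intro x
    have hfin : {L | L ∈ R ∧ x ∈ L.dom}.Finite := R.finite_toSet.subset fun _ h => h.1
    obtain ⟨f, -, hf⟩ := hfin.exists_injOn_of_encard_le (t := (Set.univ : Set (Fin t))) (by
      rw [← hfin.cast_ncard_eq, Set.encard_univ]
      have := hfreq x
      simp only [ENat.card_eq_coe_fintype_card, Fintype.card_fin, Nat.cast_le]
      omega)
    exact ⟨f, hf⟩
  choose idx hidx using hidx
  have huniq : ∀ x γ L L', Sl R idx x γ L → Sl R idx x γ L' → L = L' :=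
    fun x γ L L' h h' => hidx x ⟨h.1, h.2.1⟩ ⟨h'.1, h'.2.1⟩ (h.2.2.trans h'.2.2.symm)
  obtain ⟨e, α, β, he, K⟩ := hM R idx hR huniq
  let tl : Fin S → Arc w → Fin w × Fin (S + 1) × Fin t := fun s p => (p.1.1, s.castSucc, α p s)
  let hd : Fin S → Arc w → Fin w × Fin (S + 1) × Fin t := fun s p => (p.1.2, s.succ, β p s)
  let rkA : Arc w → ℕ := fun p => rk p.1.1 p.1.2
  have hrk : Function.Injective rkA := fun p p' h =>
    Subtype.ext (finProdFinEquiv.injective (Fin.ext h))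
  have W3 : 3 ≤ W := by omega
  have hfor : ∀ s p, ¬ (HG (tl s) (hd s) rkA p).Reachable (tl s p) (hd s p) := by
    intro s p hreach
    obtain ⟨P, hP⟩ := hreach.exists_isPath
    have hlen := hP.length_lt
    set r := rkA p with hr
    have hrm : r < w * w := rk_lt _ _
    obtain ⟨L, l1, l2, -⟩ := K p s (gz W r 0) (gz W r 0) (gz_adm _ _ _ W3) (gz_adm _ _ _ W3)
      fun _ _ => rfl
    let X0 : PP w (S + 1) (M + 1) := ⟨p.1.1, s.castSucc, e ∘ gz W r 0⟩
    let Inv : Fin w × Fin (S + 1) × Fin t → ℕ → Prop := fun v z =>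
      (∀ g, Adm W g → (∀ q, q.1 < r → g q = q.1 * W + 1) → Sl R idx ⟨v.1, v.2.1, e ∘ g⟩ v.2.2 L) ∧
      (X0 = ⟨v.1, v.2.1, e ∘ gz W r z⟩ ∨ Bef L X0 ⟨v.1, v.2.1, e ∘ gz W r z⟩)
    have step : ∀ u v z, z + 1 + 3 ≤ W → (HG (tl s) (hd s) rkA p).Adj u v → Inv u z →
        Inv v (z + 1) := by
      rintro u v z hz ⟨-, ⟨p', h1, rfl, rfl⟩ | ⟨p', h1, rfl, rfl⟩⟩ ⟨i1, i2⟩
      · have j1 : ∀ g, Adm W g → (∀ q, q.1 < r → g q = q.1 * W + 1) →
            Sl R idx ⟨p'.1.2, s.succ, e ∘ g⟩ (β p' s) L := by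
          intro g hg hg'
          obtain ⟨L', a1, a2, -⟩ := K p' s g g hg hg fun _ _ => rfl
          exact huniq _ _ _ _ a1 (i1 g hg hg') ▸ a2
        refine ⟨j1, Or.inr ?_⟩
        have b : Bef L ⟨p'.1.1, s.castSucc, e ∘ gz W r z⟩ ⟨p'.1.2, s.succ, e ∘ gz W r (z + 1)⟩ := by
          refine Bef.of_lt (i1 _ (gz_adm _ _ _ (by omega)) (gz_pre _ _ _)).2.1
            (j1 _ (gz_adm _ _ _ hz) (gz_pre _ _ _)).2.1 (lt_of_le_of_ne ?_ fun h => ?_)
          · exact Or.inr (Or.inl ⟨rfl, Or.inr (gz_PL W r z _ hrm h1 hz e he)⟩)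
          · exact p'.2 (congrArg PP.i h)
        rcases i2 with i2 | i2
        · exact i2 ▸ b
        · exact i2.trans b
      · have j1 : ∀ g, Adm W g → (∀ q, q.1 < r → g q = q.1 * W + 1) →
            Sl R idx ⟨p'.1.1, s.castSucc, e ∘ g⟩ (α p' s) L := by
          intro g hg hg'
          obtain ⟨L', a1, a2, -⟩ := K p' s g g hg hg fun _ _ => rfl
          exact huniq _ _ _ _ a2 (i1 g hg hg') ▸ a1
        refine ⟨j1, Or.inr ?_⟩
        have hz' : Adm W (gz (m := w * w) W r z) := gz_adm _ _ _ (by omega)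
        have b : Bef L ⟨p'.1.2, s.succ, e ∘ gz W r z⟩ ⟨p'.1.1, s.castSucc, e ∘ gz W r z⟩ := by
          obtain ⟨L', -, a2, a3⟩ := K p' s _ _ hz' hz' fun _ _ => rfl
          exact huniq _ _ _ _ a2 (i1 _ hz' (gz_pre _ _ _)) ▸ a3
        have hpl := gz_PL W r z _ hrm hrm hz e he
        have b' : Bef L ⟨p'.1.1, s.castSucc, e ∘ gz W r z⟩
            ⟨p'.1.1, s.castSucc, e ∘ gz W r (z + 1)⟩ := by
          refine Bef.of_lt b.right (j1 _ (gz_adm _ _ _ hz) (gz_pre _ _ _)).2.1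
            (lt_of_le_of_ne (Or.inr (Or.inr ⟨rfl, rfl, Or.inr hpl⟩)) fun h => ?_)
          have h' : e ∘ gz W r z = e ∘ gz W r (z + 1) := congrArg PP.a h
          exact PL_irrefl (h' ▸ hpl)
        rcases i2 with i2 | i2
        · exact i2 ▸ b.trans b'
        · exact i2.trans (b.trans b')
    have walk : ∀ u v (Q : (HG (tl s) (hd s) rkA p).Walk u v) z, z + Q.length + 3 ≤ W →
        Inv u z → Inv v (z + Q.length) := by
      intro u v Q
      induction Q with
      | nil => intro z _ h; exact h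
      | cons hadj Q ih =>
        intro z hz h
        rw [SimpleGraph.Walk.length_cons] at hz ⊢
        have := ih (z + 1) (by omega) (step _ _ z (by omega) hadj h)
        rwa [Nat.add_assoc, Nat.add_comm 1] at this
    have start : Inv (tl s p) 0 := by
      refine ⟨fun g hg hg' => ?_, Or.inl rfl⟩
      obtain ⟨L', a1, a2, -⟩ := K p s g (gz W r 0) hg (gz_adm _ _ _ W3)
        fun q hq => (hg' q hq).trans (gz_pre _ _ _ _ hq).symm
      exact huniq _ _ _ _ a2 l2 ▸ a1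
    obtain ⟨-, fin⟩ := walk _ _ P 0 (by omega) start
    obtain ⟨L', a1, -, a3⟩ := K p s (gz W r 0) (gz W r (0 + P.length)) (gz_adm _ _ _ W3)
      (gz_adm _ _ _ (by omega)) fun q hq => (gz_pre _ _ _ _ hq).trans (gz_pre _ _ _ _ hq).symm
    obtain rfl := huniq _ _ _ _ a1 l1
    rcases fin with fin | fin
    · exact p.2 (congrArg PP.i fin)
    · exact (fin.trans a3).irrefl
  have hio : ∀ s s' p p', hd s p ≠ tl s' p' := by
    intro s s' p p' h
    simp only [tl, hd, Prod.mk.injEq] at h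
    obtain ⟨h1, h2, h3⟩ := h
    have adm : Adm W (gz (m := w * w) W 0 0) := gz_adm _ _ _ W3
    obtain ⟨L, a1, a2, a3⟩ := K p s _ _ adm adm fun _ _ => rfl
    obtain ⟨L', b1, b2, b3⟩ := K p' s' _ _ adm adm fun _ _ => rfl
    rw [← h1, ← h2] at b1 b3
    rw [← h3] at b1
    obtain rfl := huniq _ _ _ _ a2 b1
    have h4 := congrArg Fin.val h2
    simp only [Fin.val_succ, Fin.val_castSucc] at h4
    refine ((b3.trans a3).trans (Bef.of_lt a1.2.1 b2.2.1 (lt_of_le_of_ne (Or.inl ?_)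
      fun h => ?_))).irrefl
    · simp only [Fin.val_succ, Fin.val_castSucc]
      omega
    · have := congrArg (fun x => x.s.1) h
      simp only [Fin.val_succ, Fin.val_castSucc] at this
      omega
  let p0 : Arc w := ⟨(⟨0, by omega⟩, ⟨1, by omega⟩), by simp⟩
  have hU := fun s => forest p0 (tl s) (hd s) rkA hrk (hfor s)
  have hdisj : ((Finset.univ : Finset (Fin S)) : Set (Fin S)).PairwiseDisjoint
      fun s => Finset.univ.image (tl s) ∪ Finset.univ.image (hd s) := by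
    intro s _ s' _ hne
    rw [Function.onFun, Finset.disjoint_left]
    intro v h1 h2
    simp only [Finset.mem_union, Finset.mem_image, Finset.mem_univ, true_and] at h1 h2
    rcases h1 with ⟨p, rfl⟩ | ⟨p, rfl⟩ <;> rcases h2 with ⟨p', h⟩ | ⟨p', h⟩
    · exact hne (Fin.castSucc_injective _ (congrArg (fun v => v.2.1) h)).symm
    · exact hio _ _ _ _ h
    · exact hio _ _ _ _ h.symm
    · exact hne (Fin.succ_injective _ (congrArg (fun v => v.2.1) h)).symm
  have h1 := Finset.card_le_univ (Finset.univ.biUnion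
    fun s => Finset.univ.image (tl s) ∪ Finset.univ.image (hd s))
  rw [Finset.card_biUnion hdisj] at h1
  have h2 := (Finset.sum_le_sum fun s _ => hU s).trans h1
  simp only [Finset.sum_const, Finset.card_univ, Fintype.card_fin, smul_eq_mul,
    Fintype.card_prod] at h2
  have h3 := card_arc w
  have h4 : Fintype.card (Arc w) = w * t := by
    have : w * w = w * t + w := by rw [hw]; ring
    omega
  rw [h4] at h2
  have h5 : w * ((S + 1) * t) = S * (w * t) + w * t := by ring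
  have h6 : S * (w * t + 1) = S * (w * t) + S := by ring
  have h7 : S = w * t + w := by rw [hS, hw]; ring
  omega

theorem lower_one : 1 ≤ ldim (PP 1 (1 + 1) (0 + 1)) := by
  obtain ⟨R, hR, hfreq⟩ := ldim_spec 1 (width_PP 1 1 0)
  obtain ⟨L, h1, h2⟩ := hR.1 ⟨0, 0, fun _ => 0⟩ ⟨0, 1, fun _ => 0⟩
    (lt_of_le_of_ne (Or.inr (Or.inl ⟨rfl, Or.inl rfl⟩)) fun h => by
      have := congrArg (fun x => x.s.1) h
      simp at this)
  refine le_trans ?_ (hfreq ⟨0, 0, fun _ => 0⟩)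
  exact (Set.ncard_pos (R.finite_toSet.subset fun _ h => h.1)).2 ⟨L, h1, h2.left⟩

end Pool.Agent.H.MP_33e188_co
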